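import Mathlib

set_option autoImplicit false

namespace Pool.Agent.Results.MP_ca77af_co.Trees

open Finset SimpleGraph Classical

variable {V : Type} [Fintype V]

/-- The up-color domination weight. -/
noncomputable def Ω (G : SimpleGraph V) : ℕ := sInf {w | ∃ (c : V → ℕ) (D : Finset V),
  (∀ u v, G.Adj u v → c u ≠ c v) ∧ (∀ v ∉ D, ∃ d ∈ D, G.Adj v d ∧ c v < c d) ∧
    (∀ d ∈ D, c d ≠ 0) ∧ ∑ d ∈ D, c d = w}

/-- The Roman domination number. -/
noncomputable def γr (G : SimpleGraph V) : ℕ := sInf {w | ∃ f : V → ℕ, (∀ v, f v ≤ 2) ∧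
  (∀ u, f u = 0 → ∃ v, G.Adj u v ∧ f v = 2) ∧ ∑ v, f v = w}

abbrev St := ℕ × Bool × Bool × ℤ

def Ach (G : SimpleGraph V) (f : V → ℕ) (r : V) (s : St) : Prop := ∃ (c : V → ℕ) (D : Set V),
  (∀ y z, G.Reachable r y → G.Adj y z → c y ≠ c z) ∧ (∀ y ∈ D, G.Reachable r y → c y ≠ 0) ∧
  (∀ y ∉ D, G.Reachable r y → y ≠ r ∨ s.2.2.1 → ∃ z ∈ D, G.Adj y z ∧ c y < c z) ∧ c r = s.1 ∧
  (r ∈ D ↔ s.2.1) ∧ ∑ y with G.Reachable r y, ((if y ∈ D then c y else 0 : ℤ) - f y) ≤ s.2.2.2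

def Ok (s t u : St) : Prop := s.1 ≠ t.1 ∧ (t.2.1 ∨ t.2.2.1 ∨ s.2.1 ∧ t.1 < s.1) ∧ u.1 = s.1 ∧
  u.2.1 = s.2.1 ∧ (u.2.2.1 → s.2.1 ∨ s.2.2.1 ∨ t.2.1 ∧ s.1 < t.1) ∧ s.2.2.2 + t.2.2.2 ≤ u.2.2.2

instance (s t u : St) : Decidable (Ok s t u) := by unfold Ok; infer_instance

lemma merge {G H : SimpleGraph V} {f : V → ℕ} {r x : V} {s t u : St} (a : ¬ H.Reachable r x)
    (b : ∀ y z, G.Adj y z ↔ H.Adj y z ∨ y = r ∧ z = x ∨ y = x ∧ z = r)
    (e : ∀ y, G.Reachable r y ↔ H.Reachable r y ∨ H.Reachable x y) (o : Ok s t u) :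
    Ach H f r s → Ach H f x t → Ach G f r u := by
  rintro ⟨c, D, h1, h2, h3, h4, h5, h6⟩ ⟨c', D', k1, k2, k3, k4, k5, k6⟩
  obtain ⟨o1, o2, o3, o4, o5, o6⟩ := o
  have n : ∀ y, H.Reachable x y → ¬ H.Reachable r y := fun y p q => a (q.trans p.symm)
  have t1 : ∀ w y z, H.Adj y z → (H.Reachable w y ↔ H.Reachable w z) := fun w y z p =>
    ⟨(·.trans p.reachable), (·.trans p.reachable.symm)⟩
  have r1 : H.Reachable r r := .rfl
  have r2 : H.Reachable x x := .rfl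
  refine ⟨fun y => if H.Reachable r y then c y else c' y,
    {y | if H.Reachable r y then y ∈ D else y ∈ D'}, fun y z p q => ?_, fun y p q => ?_,
    fun y p q l => ?_, by grind, by grind, ?_⟩
  · have := h1 y z; have := k1 y z; have := t1 r y z; have := e y; have := b y z
    grind
  · have := h2 y; have := k2 y; have := e y
    grind
  · simp only [Set.mem_ofPred] at p ⊢
    rcases (e y).1 q with q | q
    · by_cases w : y ≠ r ∨ s.2.2.1
      · obtain ⟨z, z1, z2, z3⟩ := h3 y (by grind) q w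
        exact ⟨z, by grind⟩
      · exact ⟨x, by grind⟩
    · by_cases w : y ≠ x ∨ t.2.2.1
      · obtain ⟨z, z1, z2, z3⟩ := k3 y (by grind) q w
        exact ⟨z, by grind⟩
      · exact ⟨r, by grind⟩
  · rw [show ({y | G.Reachable r y} : Finset V) = ({y | H.Reachable r y} : Finset V) ∪
      ({y | H.Reachable x y} : Finset V) by ext; simp [e],
      sum_union (disjoint_filter.2 fun y _ p q => n y q p)]
    refine le_trans (add_le_add ((sum_congr rfl fun y p => ?_).trans_le h6)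
      ((sum_congr rfl fun y p => ?_).trans_le k6)) o6
    · simp [(mem_filter.1 p).2]
    · simp [n y (mem_filter.1 p).2]

def tab : List (ℕ × Bool × List St) :=
  [(0, false, [(0, false, false, 0), (1, true, true, 0)]),
   (0, false, [(0, false, false, 0), (1, false, false, 0), (1, true, true, 1)]),
   (1, true, [(0, false, false, -1), (1, false, false, -1), (1, true, true, 0), (2, true, true, 1)]),
   (1, true, [(0, false, false, -1), (1, true, true, -1), (2, true, true, 0)]),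
   (2, true, [(1, true, true, -1), (2, true, true, 0)]),
   (0, true, [(0, false, false, -1), (1, true, true, 0)]),
   (0, true, [(0, false, false, -1), (1, false, false, 0), (1, false, true, 0), (1, true, true, 1)])]

lemma main (f : V → ℕ) (hf : ∀ v, f v ≤ 2) (n : ℕ) : ∀ (G : SimpleGraph V) (r : V),
    G.edgeSet.ncard = n → G.IsAcyclic →
    (∀ y ≠ r, G.Reachable r y → f y = 0 → ∃ z, G.Adj y z ∧ f z = 2) → ∃ p ∈ tab, p.1 = f r ∧
      ((f r = 0 → ∃ z, G.Adj r z ∧ f z = 2) → p.2.1) ∧ ∀ s ∈ p.2.2, Ach G f r s := by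
  induction n using Nat.strong_induction_on with | _ n ih => ?_
  intro G r hn ac h
  by_cases q : ∃ x, G.Adj r x
  · obtain ⟨x, q⟩ := q
    have a := (isBridge_iff.1 (isAcyclic_iff_forall_adj_isBridge.1 ac q))
    set H := G.deleteEdges {s(r, x)}
    have b : ∀ y z, G.Adj y z ↔ H.Adj y z ∨ y = r ∧ z = x ∨ y = x ∧ z = r := fun y z => by
      have := q.symm
      simp only [H, deleteEdges_adj, Set.mem_singleton_iff, Sym2.eq_iff]; grind
    have le : H ≤ G := deleteEdges_le _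
    have e : ∀ y, G.Reachable r y ↔ H.Reachable r y ∨ H.Reachable x y := fun y => by
      refine ⟨fun p => ?_, (·.elim (·.mono le) fun p => q.reachable.trans (p.mono le))⟩
      induction (reachable_iff_reflTransGen _ _).1 p with
      | refl => exact .inl .rfl
      | tail p1 p2 ih =>
        rcases (b _ _).1 p2 with k | ⟨-, rfl⟩ | ⟨-, rfl⟩
        · exact (ih ((reachable_iff_reflTransGen _ _).2 p1)).imp (·.trans k.reachable)
            (·.trans k.reachable)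
        exacts [.inr .rfl, .inl .rfl]
    have lt : H.edgeSet.ncard < n := hn ▸ Set.ncard_lt_ncard (by
      rw [edgeSet_deleteEdges]; exact Set.sdiff_singleton_ssubset.2 q)
    obtain ⟨p1, m1, a1, b1, c1⟩ := ih _ lt H r rfl (ac.anti le) fun y y1 y2 y3 => by
      obtain ⟨z, z1, z2⟩ := h y y1 (y2.mono le) y3
      exact ⟨z, by grind⟩
    obtain ⟨p2, m2, a2, b2, c2⟩ := ih _ lt H x rfl (ac.anti le) fun y y1 y2 y3 => by
      have : y ≠ r := fun k => a (k ▸ y2.symm)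
      obtain ⟨z, z1, z2⟩ := h y this ((e y).2 (.inr y2)) y3
      exact ⟨z, by grind⟩
    have : ∀ p1 ∈ tab, ∀ p2 ∈ tab, p2.2.1 ∨ p1.1 = 2 → ∃ p ∈ tab, p.1 = p1.1 ∧
        (p1.2.1 ∨ p2.1 = 2 → p.2.1) ∧ ∀ u ∈ p.2.2, ∃ s ∈ p1.2.2, ∃ t ∈ p2.2.2, Ok s t u := by
      decide +kernel
    obtain ⟨p, m, a3, b3, c3⟩ := this p1 m1 p2 m2 (by
      have := h x q.ne' q.reachable; have := q.ne; grind)
    refine ⟨p, m, a3.trans a1, fun k => b3 (by have := q.ne; grind), fun u hu => ?_⟩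
    obtain ⟨s, hs, t, ht, o⟩ := c3 u hu
    exact merge a b e o (c1 s hs) (c2 t ht)
  · have e : ∀ y, G.Reachable r y ↔ y = r := fun y => ⟨fun ⟨p⟩ => by
      cases p with
      | nil => rfl
      | cons k _ => exact absurd ⟨_, k⟩ q, fun k => k ▸ .rfl⟩
    have : ∀ a ≤ 2, ∃ p ∈ tab, p.1 = a ∧ (a ≠ 0 → p.2.1) ∧ ∀ s ∈ p.2.2, (s.2.1 → s.1 ≠ 0) ∧
        (s.2.2.1 → s.2.1) ∧ (if s.2.1 then s.1 else 0 : ℤ) - a ≤ s.2.2.2 := by decide +kernel
    obtain ⟨p, m, a, b, c⟩ := this _ (hf r)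
    refine ⟨p, m, a, fun k => b fun l => q ((k l).imp fun _ => And.left), fun s hs => ?_⟩
    have := c s hs
    refine ⟨fun _ => s.1, {_y | s.2.1}, by grind, by grind, by grind, rfl, .rfl, ?_⟩
    rw [show ({y | G.Reachable r y} : Finset V) = {r} by ext; simp [e], sum_singleton]
    simpa using this.2.2

theorem result (V : Type) [Fintype V] (G : SimpleGraph V) (h : G.IsTree) : Ω G ≤ γr G := by
  obtain ⟨f, f1, f2, f3⟩ : γr G ∈ _ := Nat.sInf_mem ⟨_, fun _ => 1, by simp, by simp, rfl⟩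
  obtain ⟨r⟩ := h.1.nonempty
  obtain ⟨p, m, -, b, c⟩ := main f f1 _ G r rfl h.2 fun y _ _ => f2 y
  obtain ⟨s, hs, s1, s2⟩ := (by decide +kernel : ∀ p ∈ tab, p.2.1 → ∃ s ∈ p.2.2, s.2.2.1 ∧
    s.2.2.2 ≤ 0) p m (b (f2 r))
  obtain ⟨c, D, h1, h2, h3, -, -, h6⟩ := c s hs
  have e := h.1 r
  refine (Nat.sInf_le (m := ∑ d with d ∈ D, c d) ?_).trans ?_
  · exact ⟨c, ({y | y ∈ D} : Finset V), fun u v => h1 u v (e u), fun v hv => by
      simpa using h3 v (by simpa using hv) (e v) (.inr s1), fun d hd =>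
      h2 d (mem_filter.1 hd).2 (e d), rfl⟩
  rw [filter_true_of_mem fun y _ => e y, sum_sub_distrib] at h6
  rw [← f3, sum_filter]
  zify
  linarith

end Pool.Agent.Results.MP_ca77af_co.Trees
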